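import Mathlib

/-!
# Affine representations over a field of characteristic zero with algebraic linear part
-/

open Polynomial

universe u

namespace Pool.Agent.NegK.NT.H58

theorem qbar_not_finite : ¬ Module.Finite ℚ (AlgebraicClosure ℚ) := by
  intro h
  obtain ⟨p, hp, hpp⟩ :=
    Nat.exists_infinite_primes (Module.finrank ℚ (AlgebraicClosure ℚ) + 2)
  have : NeZero (p : AlgebraicClosure ℚ) := ⟨by exact_mod_cast hpp.ne_zero⟩
  obtain ⟨μ, hμ⟩ := HasEnoughRootsOfUnity.exists_primitiveRoot (AlgebraicClosure ℚ) p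
  have h1 := minpoly.natDegree_le (A := ℚ) μ
  have h2 := cyclotomic_eq_minpoly_rat hμ hpp.pos
  rw [← h2, natDegree_cyclotomic, Nat.totient_prime hpp] at h1
  omega

/-- A finite dimensional space over a number field has an injective linear map to `ℚ̄`. -/
theorem exists_injective (F : Type u) [Field F] [Algebra ℚ F] [FiniteDimensional ℚ F]
    [Algebra F (AlgebraicClosure ℚ)] [IsScalarTower ℚ F (AlgebraicClosure ℚ)]
    (M : Type u) [AddCommGroup M] [Module F M] [FiniteDimensional F M] :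
    ∃ l : M →ₗ[F] AlgebraicClosure ℚ, Function.Injective l := by
  have hinf : ¬ Module.Finite F (AlgebraicClosure ℚ) := by
    intro h
    exact qbar_not_finite (Module.Finite.trans F (AlgebraicClosure ℚ))
  have hr : Cardinal.aleph0 ≤ Module.rank F (AlgebraicClosure ℚ) := by
    by_contra hlt
    exact hinf (Module.rank_lt_aleph0_iff.mp (not_le.mp hlt))
  let b := Module.finBasis F M
  have hn : ((Module.finrank F M : ℕ) : Cardinal) ≤ Module.rank F (AlgebraicClosure ℚ) :=
    Cardinal.natCast_lt_aleph0.le.trans hr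
  obtain ⟨f, hf⟩ := Module.le_rank_iff_exists_linearMap.mp hn
  exact ⟨f ∘ₗ b.equivFun.toLinearMap, hf.comp b.equivFun.injective⟩

theorem aff {K : Type u} [Field K] [CharZero K] {G : Type u} [Group G] [Group.FG G]
    (χ : G →* Kˣ) (β : G → K) (hβ : ∀ g h, β (g * h) = χ g * β h + β g)
    (hχ : ∀ g, IsAlgebraic ℤ (χ g : K)) :
    ∃ (χ' : G →* (AlgebraicClosure ℚ)ˣ) (β' : G → AlgebraicClosure ℚ),
      (∀ g h, β' (g * h) = χ' g * β' h + β' g) ∧ (∀ g, χ' g = 1 ↔ χ g = 1) ∧
        ∀ g, β' g = 0 ↔ β g = 0 := by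
  obtain ⟨S, hS, hfin⟩ := (Group.fg_iff (G := G)).mp ‹_›
  have hmem : ∀ g : G, g ∈ Subgroup.closure S := fun g => hS ▸ Subgroup.mem_top g
  let A : Set K := (fun g => (χ g : K)) '' S
  have : Finite A := (hfin.image _).to_subtype
  let F : IntermediateField ℚ K := IntermediateField.adjoin ℚ A
  have hint : ∀ x ∈ A, IsIntegral ℚ x := by
    rintro _ ⟨g, -, rfl⟩
    exact ((IsFractionRing.isAlgebraic_iff ℤ ℚ K).mp (hχ g)).isIntegral
  have hFfd : FiniteDimensional ℚ F := IntermediateField.finiteDimensional_adjoin hint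
  have h1 : ∀ g : G, (χ g : K) ∈ F := by
    intro g
    induction hmem g using Subgroup.closure_induction with
    | mem x hx => exact IntermediateField.subset_adjoin ℚ A ⟨x, hx, rfl⟩
    | one => simp
    | mul x y _ _ hx hy =>
      rw [map_mul, Units.val_mul]
      exact mul_mem hx hy
    | inv x _ hx =>
      rw [map_inv, Units.val_inv_eq_inv_val]
      exact inv_mem hx
  let M : Submodule F K := Submodule.span F (β '' S)
  have hMfd : FiniteDimensional F M := FiniteDimensional.span_of_finite F (hfin.image _)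
  have hβ1 : β 1 = 0 := by
    have := hβ 1 1
    simpa using this
  have h2 : ∀ g : G, β g ∈ M := by
    intro g
    induction hmem g using Subgroup.closure_induction with
    | mem x hx => exact Submodule.subset_span ⟨x, hx, rfl⟩
    | one =>
      rw [hβ1]
      exact zero_mem _
    | mul x y _ _ hx hy =>
      rw [hβ]
      exact add_mem (M.smul_mem (⟨χ x, h1 x⟩ : F) hy) hx
    | inv x _ hx =>
      have h3 := hβ x⁻¹ x
      rw [inv_mul_cancel, hβ1] at h3
      have h4 : β x⁻¹ = -(χ x⁻¹ * β x) := by linear_combination -h3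
      rw [h4]
      exact neg_mem (M.smul_mem (⟨χ x⁻¹, h1 x⁻¹⟩ : F) hx)
  let σ : F →ₐ[ℚ] AlgebraicClosure ℚ := IsAlgClosed.lift
  let _ : Algebra F (AlgebraicClosure ℚ) := σ.toRingHom.toAlgebra
  have : IsScalarTower ℚ F (AlgebraicClosure ℚ) :=
    IsScalarTower.of_algebraMap_eq' σ.comp_algebraMap.symm
  obtain ⟨l, hl⟩ := exists_injective F M
  let c : G →* AlgebraicClosure ℚ :=
    { toFun := fun g => σ ⟨χ g, h1 g⟩
      map_one' := by
        rw [← map_one σ]
        exact congrArg σ (Subtype.ext (by simp))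
      map_mul' := fun x y => by
        rw [← map_mul σ]
        exact congrArg σ (Subtype.ext (by simp)) }
  refine ⟨c.toHomUnits, fun g => l ⟨β g, h2 g⟩, ?_, ?_, ?_⟩
  · intro g h
    have h5 : (⟨β (g * h), h2 (g * h)⟩ : M) =
        (⟨χ g, h1 g⟩ : F) • (⟨β h, h2 h⟩ : M) + ⟨β g, h2 g⟩ :=
      Subtype.ext (hβ g h)
    change l ⟨β (g * h), h2 (g * h)⟩ = σ ⟨χ g, h1 g⟩ * l ⟨β h, h2 h⟩ + l ⟨β g, h2 g⟩
    rw [h5, map_add, map_smul, Algebra.smul_def]
    rfl
  · intro g
    rw [Units.ext_iff, Units.ext_iff]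
    change σ ⟨χ g, h1 g⟩ = 1 ↔ (χ g : K) = 1
    rw [map_eq_one_iff σ σ.injective]
    exact Subtype.ext_iff
  · intro g
    change l ⟨β g, h2 g⟩ = 0 ↔ β g = 0
    rw [map_eq_zero_iff l hl]
    exact Subtype.ext_iff

end Pool.Agent.NegK.NT.H58

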