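import Pool.Agent.Lib.MP_28303a_al.NT.Kar
import Pool.Agent.Lib.MP_28303a_al.NK.K0Api

/-! # Located projective modules over the boxes: their classes in `K₀` -/

set_option autoImplicit false

namespace Pool.Agent.NegK.NT.H58

universe u

open CategoryTheory Matrix

section

variable {k : Type u} [Ring k] {Γ : Type u} [Group Γ]

/-- Matrices over the group ring of a subgroup. -/
theorem mcls_mem_range (H : Subgroup Γ) {ι : Type} [Fintype ι] [DecidableEq ι]
    (e : Matrix ι ι (MonoidAlgebra k Γ)) (he : e * e = e)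
    (h : ∀ i j g, (e i j).coeff g ≠ 0 → g ∈ H) :
    mcls e he ∈ (K0.map (MonoidAlgebra.mapDomainRingHom k H.subtype)).range := by
  have hinj : Function.Injective H.subtype := H.subtype_injective
  let e' : Matrix ι ι (MonoidAlgebra k H) :=
    Matrix.of fun i j => MonoidAlgebra.comapDomain H.subtype hinj (e i j)
  have h1 : e'.map (MonoidAlgebra.mapDomainRingHom k H.subtype) = e := by
    refine Matrix.ext fun i j => ?_
    exact MonoidAlgebra.mapDomain_comapDomain (fun g hg =>
      ⟨⟨g, h i j g (Finsupp.mem_support_iff.1 hg)⟩, rfl⟩) hinj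
  have h2 : e' * e' = e' := by
    have h3 : Function.Injective fun M : Matrix ι ι (MonoidAlgebra k H) =>
        M.map (MonoidAlgebra.mapDomainRingHom k H.subtype) :=
      Matrix.map_injective (MonoidAlgebra.mapDomain_injective hinj)
    refine h3 ?_
    change (e' * e').map _ = e'.map _
    rw [Matrix.map_mul, h1, he]
  refine ⟨mcls e' h2, ?_⟩
  rw [mcls_map]
  exact mcls_congr _ h1

omit [Group Γ] in
theorem eq_of_coeff_single {x g : Γ}
    (h : (MonoidAlgebra.single x (1 : k)).coeff g ≠ 0) : x = g := by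
  classical
  rw [MonoidAlgebra.coeff_single, Finsupp.single_apply] at h
  by_contra hc
  exact h (if_neg hc)

/-- Matrices whose entries are located on one orbit. -/
theorem mcls_mem_orbit {B : Type u} [MulAction Γ B] (U : B) {ι : Type} [Fintype ι]
    [DecidableEq ι] (loc : ι → B) (hl : ∀ i, ∃ g : Γ, g • U = loc i)
    (e : Matrix ι ι (MonoidAlgebra k Γ)) (he : e * e = e)
    (h : ∀ i j g, (e i j).coeff g ≠ 0 → loc i = g • loc j) :
    mcls e he ∈ (K0.map (MonoidAlgebra.mapDomainRingHom k
      (MulAction.stabilizer Γ U).subtype)).range := by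
  choose a ha using hl
  let V : Matrix ι ι (MonoidAlgebra k Γ) :=
    Matrix.diagonal fun i => MonoidAlgebra.single (a i) (1 : k)
  let W : Matrix ι ι (MonoidAlgebra k Γ) :=
    Matrix.diagonal fun i => MonoidAlgebra.single (a i)⁻¹ (1 : k)
  have hVW : V * W = 1 := by
    change Matrix.diagonal _ * Matrix.diagonal _ = 1
    rw [Matrix.diagonal_mul_diagonal, ← Matrix.diagonal_one]
    congr 1
    funext i
    rw [MonoidAlgebra.single_mul_single, mul_inv_cancel, one_mul]
    rfl
  have hf : (W * e * V) * (W * e * V) = W * e * V := by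
    rw [Matrix.mul_assoc (W * e) V, ← Matrix.mul_assoc V, ← Matrix.mul_assoc V, hVW,
      Matrix.one_mul, ← Matrix.mul_assoc, Matrix.mul_assoc W e e, he]
  rw [mcls_conj he hf W V hVW rfl]
  refine mcls_mem_range _ _ hf fun i j g hg => ?_
  have h1 : (W * e * V) i j = MonoidAlgebra.single (a i)⁻¹ (1 : k) * e i j *
      MonoidAlgebra.single (a j) (1 : k) := by
    change ((Matrix.diagonal _ * e) * Matrix.diagonal _ : Matrix ι ι (MonoidAlgebra k Γ)) i j = _
    rw [Matrix.mul_diagonal, Matrix.diagonal_mul]
  rw [h1] at hg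
  obtain ⟨g₁, g₂, h2, h3, rfl⟩ := Loc.exists_of_mul hg
  obtain ⟨g₃, g₄, h4, h5, rfl⟩ := Loc.exists_of_mul h2
  rw [← eq_of_coeff_single h3, ← eq_of_coeff_single h4]
  have h6 := h i j g₄ h5
  rw [← ha i, ← ha j] at h6
  rw [MulAction.mem_stabilizer_iff, mul_smul, mul_smul, ← h6, inv_smul_smul]

end

section

variable {Γ : Type u} [Group Γ] (T : Sys Γ)

/-- The class of an idempotent matrix over the boxes. -/
theorem mcls_mem_gen (k : Type u) [Ring k] (sz : T.Box → ℕ)
    (hs : ∀ (g : Γ) x, sz (g • x) = sz x)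
    (hlt : ∀ x y : T.Box, (∀ i, x i ≤ y i) → x ≠ y → sz x < sz y) (n : ℕ) :
    ∀ {ι : Type} [Fintype ι] [DecidableEq ι] (_ : Fintype.card ι = n) (loc : ι → T.Box)
      (e : Matrix ι ι (MonoidAlgebra k Γ)) (he : e * e = e)
      (_ : ∀ i j g, (e i j).coeff g ≠ 0 → (T.P Finset.univ).le (loc i) (g • loc j)),
      mcls e he ∈ T.GEN k := by
  classical
  induction n using Nat.strong_induction_on with
  | _ n IH =>
    intro ι _ _ hn loc e he h
    rcases isEmpty_or_nonempty ι with hι | hι
    · have h0 : e = 0 := Matrix.ext fun i => isEmptyElim i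
      rw [mcls_congr he h0, mcls_zero]
      exact zero_mem _
    · obtain ⟨i₀, -, hi₀⟩ := Finset.exists_max_image (Finset.univ : Finset ι)
        (fun i => sz (loc i)) Finset.univ_nonempty
      have hle : ∀ {x y : T.Box} {g : Γ}, (T.P Finset.univ).le x (g • y) → sz x ≤ sz y ∧
          (sz x = sz y → x = g • y) := by
        intro x y g hxy
        have h1 : ∀ i, x i ≤ (g • y) i := fun i => hxy i (Finset.mem_univ i)
        by_cases h2 : x = g • y
        · exact ⟨by rw [h2, hs], fun _ => h2⟩
        · have h3 := hlt _ _ h1 h2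
          rw [hs] at h3
          exact ⟨h3.le, fun h4 => absurd h4 h3.ne⟩
      let p : ι → Prop := fun i => ∃ g : Γ, g • loc i₀ = loc i
      let O := {i // p i}
      let N := {i // ¬ p i}
      let σ : O ⊕ N ≃ ι := Equiv.sumCompl p
      let e₁ : Matrix O O (MonoidAlgebra k Γ) := e.submatrix (fun i => i.1) fun i => i.1
      let e₂ : Matrix N N (MonoidAlgebra k Γ) := e.submatrix (fun i => i.1) fun i => i.1
      let y : Matrix N O (MonoidAlgebra k Γ) := e.submatrix (fun i => i.1) fun i => i.1
      have hz : ∀ i j, p i → ¬ p j → e i j = 0 := by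
        intro i j ⟨a, ha⟩ hj
        by_contra hc
        obtain ⟨g, hg⟩ : ∃ g, (e i j).coeff g ≠ 0 := by
          by_contra hc'
          push Not at hc'
          exact hc (MonoidAlgebra.ext (Finsupp.ext fun g => hc' g))
        have h1 := hle (h i j g hg)
        have h2 : sz (loc i) = sz (loc i₀) := by rw [← ha, hs]
        have h3 := hi₀ j (Finset.mem_univ j)
        have h4 := h1.2 (le_antisymm h1.1 (by rw [h2]; exact h3))
        refine hj ⟨g⁻¹ * a, ?_⟩
        rw [mul_smul, ha, h4, inv_smul_smul]
      have hb : e.submatrix σ σ = Matrix.fromBlocks e₁ 0 y e₂ := by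
        refine Matrix.ext fun i j => ?_
        rcases i with i | i <;> rcases j with j | j
        · rfl
        · exact hz i.1 j.1 i.2 j.2
        · rfl
        · rfl
      have hbb : Matrix.fromBlocks e₁ 0 y e₂ * Matrix.fromBlocks e₁ 0 y e₂ =
          Matrix.fromBlocks e₁ 0 y e₂ := by
        rw [← hb, Matrix.submatrix_mul_equiv, he]
      have h11 : e₁ * e₁ = e₁ ∧ e₂ * e₂ = e₂ := by
        have h1 := hbb
        rw [Matrix.fromBlocks_multiply, Matrix.fromBlocks_inj, Matrix.zero_mul, add_zero,
          Matrix.mul_zero y, zero_add] at h1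
        exact ⟨h1.1, h1.2.2.2⟩
      have h12 : mcls e he = mcls (Matrix.fromBlocks e₁ 0 y e₂) hbb := by
        refine mcls_eq he hbb (e.submatrix id σ) (e.submatrix σ id) ?_ ?_
        · rw [Matrix.submatrix_mul_equiv, he]
          rfl
        · rw [← hb]
          exact (Matrix.submatrix_mul_equiv e e σ (Equiv.refl ι) σ).trans (by rw [he])
      rw [h12, mcls_triangular hbb h11.1 h11.2]
      refine add_mem ?_ ?_
      · refine le_iSup (fun U : T.Box => (K0.map (MonoidAlgebra.mapDomainRingHom k
          (MulAction.stabilizer Γ U).subtype)).range) (loc i₀)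
          (mcls_mem_orbit (loc i₀) (fun i : O => loc i.1) (fun i => i.2) e₁ h11.1 ?_)
        intro i j g hg
        have h1 := hle (h i.1 j.1 g hg)
        refine h1.2 ?_
        obtain ⟨a, ha⟩ := i.2
        obtain ⟨b, hb'⟩ := j.2
        rw [← ha, ← hb', hs, hs]
      · refine IH (Fintype.card N) ?_ rfl (fun i : N => loc i.1) e₂ h11.2 fun i j g hg =>
          h i.1 j.1 g hg
        rw [← hn]
        exact Fintype.card_subtype_lt (x := i₀) (not_not.2 ⟨1, one_smul _ _⟩)

/-- The located projective modules have classes in the part which is generated by the stabilizers. -/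
theorem grb : T.GRB := by
  classical
  rintro ⟨sz, hs, hlt⟩ k _ Y
  rw [clsK]
  split_ifs with h
  · rw [← mcls_self]
    refine mcls_mem_gen T k sz hs hlt _ rfl
      (fun i => Y.X.loc ((Finite.equivFin Y.X.ι).symm i)) _ _ ?_
    intro i j g hg
    exact Loc.spt_lin Y.p _ _ g hg
  · exact zero_mem _

end

end Pool.Agent.NegK.NT.H58
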